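import Mathlib
import Pool.Agent.N144.SP.Irr

/-!
# Irreducibility for a positive proportion of the primes

Let `π` be an algebraic cuspidal automorphic representation of `GL_n` over a number field `K` (for example
`ℚ`) whose Hecke polynomials have coefficients in the number field `E`, with the attached representations
`V_λ` of the Galois group of `K` over the completions `E_λ`.  For a prime number `ℓ` let `V_ℓ` be the
sum of the `V_λ`, for all `λ` above `ℓ`: it is a representation over `ℚ_ℓ` of dimension `N = n [E : ℚ]` with an
action of `E` (by `ε ℓ`), and its Frobenius polynomials `P v` are the norms of the Hecke polynomials.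
For an embedding `φ` of `E` in the algebraic closure of `ℚ_ℓ`, corresponding to a place `λ`, the part
`partAt (ε ℓ) φ` of `V_ℓ` is the representation `V_λ` over the algebraic closure of `ℚ_ℓ`, of dimension `n`.
(More generally the theorem is about representations of a compact group `Γ` with a
homomorphism from the Galois group.)  We assume purity (the Ramanujan conjecture) and integrality outside
of a finite set `S` of places; these are known if `π` is regular and essentially self-dual, and for all
motives.  No self-duality, no regularity and nothing at the places above `ℓ` is used.  Let `r` be the maximal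
number of multiplicatively independent eigenvalues of a Frobenius element on `V_ℓ`.

The *relations* between numbers `z_1, ..., z_N` are the vectors `n` of integers such that the product of
the `z_i ^ {n_i}` is a root of unity.  Let `R` be a set of vectors of rank at most `N - r`, and let `A` be
the group of permutations of `{1, ..., N}` which preserve `R`.  An element `γ` of the image of the Galois group
at a prime `p` has the *type* `a` (with respect to `p` and to an automorphism `τ` of the algebraic
closure of `ℚ_p`) if the eigenvalues of `ρ_p(γ)` on `V_p` can be written as `z_1, ..., z_N` with relations `R`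
and `τ (z_i) = z_{a(i)}` (no quotient of two of them being a root of unity).  In the same way we define
the types of the elements of the Lie algebra of the image.

Let `T j` (for `j` in any index set) be sets of types which occur at primes `p j` for automorphisms `τ j`.
Consider all pairs (`G`, `M`) of a subgroup `G` of `A` and a normal subgroup `M` of `G` such that for all `j` the
elements of `T j` are conjugate in `A` to elements of one coset of `M` in `G`.  A coset `M * g` (`g` in `G`)
*forces* that there are at most `m` orbits if this is true for all subgroups `H` of `A` for which there is an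
element `y` of `A` which normalizes `H` such that all elements of `M * g` are conjugate in `A` to elements of
`H * y`.

**Theorem.**  (1) Suppose that for all these pairs (`G`, `M`), the number of the elements `g` of `G` such that
the coset `M * g` forces that there are at most `[E : ℚ]` orbits is at least `δ` times the order of `G`
(`ForcesProportion`).  Then for a set of prime numbers `ℓ` of lower natural density at least `δ`, and for all
`λ` above `ℓ`, the representation `V_λ` is absolutely irreducible, also for all subgroups of finite index, and
the only endomorphisms of `V_ℓ` which commute with a subgroup of finite index are the elements of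
`E ⊗ ℚ_ℓ` (`IrreducibleAt`).

(2) Suppose that for all these pairs, every subgroup `H` of `A` which contains conjugates of all elements of
`M` has at most `[E : ℚ]` orbits (`ForcesSplit`).  Then there is a monic polynomial `f` with integral
coefficients such that the same is true for all `ℓ` modulo which `f` splits, outside of a set of density zero.

(3) In particular: let `E = ℚ`, and suppose that at one prime `p` (and for one `τ`) the type `1` and an
`N`-cycle occur, i.e. there are places of good reduction with a Frobenius polynomial which splits over
`ℚ_p` and with an irreducible one, in both cases with the relations `R`.  Then for at least `N / |A|` of all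
primes `ℓ` the representation `V_ℓ` is absolutely irreducible over all finite extensions, and there is a
monic polynomial `f` as in (2).

For `δ = 1` this is `ZeroOneIrreducibility` in this folder (irreducibility at `100` percent of the primes), where
the types have to generate `A`, more or less, invariably.  The theorem of Patrikis and Taylor
(irreducibility for a positive proportion of the primes) is about regular and essentially self-dual `π`; here
there is no such condition, but one needs to know two Hecke polynomials, as in (3).  The bound for the
density is explicit; it depends only on `N` and `A` (for example `A` is contained in the group of the signed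
permutations if the similitude character is the only reason for relations).

The proof extends the library `Pool.Agent.R931.ZF` (by the earlier version of this team), see
`PositiveProportion` in MP_8f1292_ag: for almost all `ℓ` the elements of a coset `M * g` occur as types at `ℓ`
with respect to one Frobenius element of the Galois group of `ℚ_ℓ`, where `G` is the Galois group of a
Frobenius polynomial `P v`, and the density of the `ℓ` for which the coset is good is computed with
Chebotarev's theorem.  The places of good reduction at which one compares the eigenvalues of the stable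
subspaces give a group `H` of permutations which preserves the stable subspaces, and it has at most
`[E : ℚ]` orbits, one for each embedding of `E`.
-/

set_option autoImplicit false

namespace Pool.Agent.Results.MP_fa5bba_nt.PositiveProportion

open NumberField IsDedekindDomain Polynomial Module Pool.Agent.Y114.TF Pool.Agent.Y114.GF
  Pool.Agent.Y114.MU Pool.Agent.Y114.RM Pool.Agent.R931.GD Pool.Agent.R931.ZL Pool.Agent.R931.ZM
  Pool.Agent.R931.PD Pool.Agent.R931.ZF Pool.Agent.N144.SP

theorem result (K : Type) [Field K] [NumberField K] (Γ : Type) [Group Γ] [TopologicalSpace Γ]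
    [IsTopologicalGroup Γ] [CompactSpace Γ] (s : Gal(AlgebraicClosure K/K) →* Γ)
    (hs : Continuous s)
    -- the `ℓ`-adic representations
    (N : ℕ) (hN : 0 < N)
    (ρ : ∀ (ℓ : ℕ) [Fact ℓ.Prime], Rep1 Γ N ℓ) (hρ : ∀ (ℓ : ℕ) [Fact ℓ.Prime], Conts (ρ ℓ))
    -- the coefficients
    (E : Type) [Field E] [NumberField E] (n : ℕ) (hn : 0 < n)
    (ε : ∀ (ℓ : ℕ) [Fact ℓ.Prime], E →+* End ℚ_[ℓ] (Fin N → ℚ_[ℓ]))
    (hε : ∀ (ℓ : ℕ) [Fact ℓ.Prime], ActsFreely n (ρ ℓ) (ε ℓ))
    -- the Frobenius polynomials outside of a finite set of places
    (wt : ℤ) (c : ℕ) (S : Set (HeightOneSpectrum (𝓞 K))) (hS : S.Finite)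
    (P : HeightOneSpectrum (𝓞 K) → ℚ[X])
    (hP : ∀ (ℓ : ℕ) [Fact ℓ.Prime], ∀ v ∉ S, ¬ Above v ℓ →
      GoodReduction (restrictTo (ρ ℓ) s) () wt v (P v))
    (hint : ∀ v ∉ S, IntegralAt c v (P v))
    -- at most `r` independent eigenvalues
    (r : ℕ) (hrank : ∀ v ∉ S, ¬ IndepRoots (r + 1) {P v})
    -- the relations, and their automorphism group
    (R : Set (Fin N → ℤ)) (hR : RankGE r R)
    -- the types at some prime numbers
    (J : Type) (T : J → Set (Equiv.Perm (Fin N))) (hne : ∃ j, (T j).Nonempty)
    (p : J → ℕ) [∀ j, Fact (p j).Prime] (τ : ∀ j, Gal(PadicAlgCl (p j)/ℚ_[p j]))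
    (htypes : ∀ j, ∀ a ∈ T j, TypeOccurs s (ρ (p j)) R (τ j) a) :
    -- a proportion of the primes
    (∀ δ : ℝ, ForcesProportion (relAut R) T (fun H => orbitCount H ≤ finrank ℚ E) δ →
      LowerDensityGE {ℓ | ∃ _ : Fact ℓ.Prime, IrreducibleAt ρ ε ℓ} δ) ∧
    -- the primes which split in a number field
    (ForcesSplit (relAut R) T (fun H => orbitCount H ≤ finrank ℚ E) → ∃ f : ℤ[X], f.Monic ∧
      HasDensityZero {ℓ | ∃ _ : Fact ℓ.Prime,
        (f.map (Int.castRingHom (ZMod ℓ))).Splits ∧ ¬ IrreducibleAt ρ ε ℓ}) ∧
    -- one split and one irreducible Frobenius polynomial
    ∀ (j : J) (a : Equiv.Perm (Fin N)), 1 ∈ T j → a ∈ T j → (∀ i k, ∃ m : ℕ, (a ^ m) i = k) →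
      LowerDensityGE {ℓ | ∃ _ : Fact ℓ.Prime, IrreducibleAt ρ ε ℓ}
        ((N : ℝ) / (Nat.card (relAut R) : ℝ)) ∧
      ∃ f : ℤ[X], f.Monic ∧ HasDensityZero {ℓ | ∃ _ : Fact ℓ.Prime,
        (f.map (Int.castRingHom (ZMod ℓ))).Splits ∧ ¬ IrreducibleAt ρ ε ℓ} := by
  have h : SetupG K Γ s N wt c r S P ρ := ⟨hN, hs, hρ, hS, hP, hint, fun v hv => hrank v hv.1⟩
  obtain ⟨h1, h2⟩ := irr_law h R hR T hne p τ htypes n hn ε hε
  refine ⟨h1, h2, fun j a h1j haj hcyc => ?_⟩
  obtain ⟨h3, h4⟩ := proportion_of_cycle hN (relAut R) T j h1j haj hcyc
  have hE : 1 ≤ finrank ℚ E := finrank_pos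
  refine ⟨h1 _ fun G M hGA hMG hnorm hmeet => (h3 G M hGA hMG hnorm hmeet).trans ?_,
    h2 fun G M H hGA hMG hnorm hmeet hc => (h4 G M H hGA hMG hnorm hmeet hc).trans hE⟩
  let F : {g : Equiv.Perm (Fin N) // g ∈ G ∧
        CosetForces (relAut R) M g (fun H => orbitCount H ≤ 1)} →
      {g : Equiv.Perm (Fin N) // g ∈ G ∧
        CosetForces (relAut R) M g (fun H => orbitCount H ≤ finrank ℚ E)} := fun x =>
    ⟨x.1, x.2.1, fun H y hH hy hyn hm => (x.2.2 H y hH hy hyn hm).trans hE⟩
  have hF : Function.Injective F := fun x y hxy =>
    Subtype.ext (congrArg (fun z : {g : Equiv.Perm (Fin N) // g ∈ G ∧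
        CosetForces (relAut R) M g (fun H => orbitCount H ≤ finrank ℚ E)} => z.1) hxy)
  exact_mod_cast Nat.card_le_card_of_injective F hF

end Pool.Agent.Results.MP_fa5bba_nt.PositiveProportion
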