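import Pool.Agent.N171.TG.Mt4
import Pool.Agent.N171.TG.Irr2

/-!
# Irreducibility of Galois representations of symplectic type from the image modulo two, and tensor
# products

Let `K` be a number field (in the question `K = ℚ`) and let `π i` be finitely many algebraic cuspidal
automorphic representations of `GL_(N i)` over `K`, `N i ≥ 6`, with rational Hecke polynomials `P i v`, which
are essentially self-dual of symplectic type, and whose attached Galois representations `ρ i ℓ` are
similitudes with factor the power `w i` of the inverse cyclotomic character (for instance regular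
ones). Over each `ℚ_ℓ` the alternating form can be brought into the standard form by a choice of the
basis, so one may use one rational alternating form `J i` (`IsSystem`).

The hypothesis is on the joint image of Galois MODULO TWO (`LargeModTwo`): the representations at `ℓ = 2`
are integral with unimodular forms, and there are `N i + 1` integral vectors with odd mutual
products such that each EVEN permutation of these vectors modulo two is given by an element of the
Galois group which acts trivially modulo two on the other representations. It holds for example if the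
joint image modulo two contains the product of the groups `Sp(N i, 𝔽₂)`, or only the product of the
alternating groups of degrees `N i + 1`.

**Theorem.** 1. At `ℓ = 2` and at all `ℓ` outside of a set of prime numbers of density zero the
representations `ρ i ℓ` are absolutely irreducible, and so are the tensor products `ρ i ℓ ⊗ ρ j ℓ` for
`i ≠ j` (the representations attached to the Rankin-Selberg products).

2. At `ℓ = 2`, for EVERY representation `τ` of the Galois group over `ℚ_2`, of dimension `d`, with a stable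
lattice which does not absorb the permutations modulo two (`FreeValues`; for example if
`(N i + 1)! > 2 ^ (d ^ 2 + 1)`), for instance for the representation attached to another cuspidal
representation: the tensor product `ρ i 2 ⊗ τ` is irreducible over an extension `E` of `ℚ_2` **if and only
if** `τ` is irreducible over `E`. No self-duality, purity, regularity or compatibility is assumed for `τ`.

No regularity of `π i` is used (the Hodge-Tate weights play no role), and purity is not used either.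

Proof. Some element of the Galois group acts by a product of two transpositions; the logarithms of the
conjugates of its powers generate a Lie algebra whose saturation is the symplectic Lie algebra over
the 2-adic integers, and the limits are taken along elements which tend to one in `τ` to a higher order.
So the Lie algebra of the image on the sum of the `ρ i 2` and `τ` contains the product of the symplectic
Lie algebras and zero. For other `ℓ` this follows from the theorems on compatible systems (Larsen, Pink,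
Serre; library), off a set of density zero. A subspace of `V ⊗ T` stable under Galois is stable under the
symplectic Lie algebra of `V`, so under all endomorphisms of `V`, so it has the form `V ⊗ T'`.
-/

set_option autoImplicit false

namespace Pool.Agent.Results.MP_fa5bba_nt.TensorProducts

open Matrix Polynomial Filter Topology NumberField IsDedekindDomain

/-- the absolute Galois group, with the profinite (Krull) topology -/
abbrev AbsoluteGaloisGroup (K : Type) [Field K] : Type := Gal(AlgebraicClosure K/K)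

/-- `σ` is a Frobenius element at the prime `v` of `K`: there is a maximal ideal `Q` above `v` of the
ring of all algebraic integers with `σ x ≡ x ^ N(v)` modulo `Q` for all `x` -/
def IsFrobenius {K : Type} [Field K] [NumberField K] (v : HeightOneSpectrum (𝓞 K))
    (σ : AbsoluteGaloisGroup K) : Prop :=
  ∃ Q : Ideal (𝓞 (AlgebraicClosure K)), Q.IsMaximal ∧
    Q.comap (algebraMap (𝓞 K) (𝓞 (AlgebraicClosure K))) = v.asIdeal ∧
    ∀ x : 𝓞 (AlgebraicClosure K), σ • x - x ^ Ideal.absNorm v.asIdeal ∈ Q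

/-- the rational matrix as an `ℓ`-adic matrix -/
noncomputable abbrev adic (ℓ : ℕ) [Fact ℓ.Prime] {n : ℕ} (J : Matrix (Fin n) (Fin n) ℚ) :
    Matrix (Fin n) (Fin n) ℚ_[ℓ] :=
  J.map (algebraMap ℚ ℚ_[ℓ])

/-- Compatible systems of `ℓ`-adic representations of rank `N i`, for all prime numbers `ℓ`, of symplectic
type: similitudes of the alternating form `J i` with factor `κ ℓ ^ w i`, with Frobenius polynomials `P i v`
outside of the finite set `S` of places; `κ ℓ` is the inverse of the cyclotomic character. -/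
structure IsSystem {K : Type} [Field K] [NumberField K] {ι : Type} {N w : ι → ℕ}
    (S : Set (HeightOneSpectrum (𝓞 K))) (P : ι → HeightOneSpectrum (𝓞 K) → ℚ[X])
    (J : ∀ i, Matrix (Fin (N i)) (Fin (N i)) ℚ)
    (κ : ∀ (ℓ : ℕ) [Fact ℓ.Prime], AbsoluteGaloisGroup K →* ℚ_[ℓ])
    (ρ : ∀ (i : ι) (ℓ : ℕ) [Fact ℓ.Prime],
      AbsoluteGaloisGroup K →* Matrix (Fin (N i)) (Fin (N i)) ℚ_[ℓ]) : Prop where
  finite : S.Finite
  alternating : ∀ i, (J i)ᵀ = -J i
  nondegenerate : ∀ i, (J i).det ≠ 0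
  continuous_char : ∀ (ℓ : ℕ) [Fact ℓ.Prime], Continuous (κ ℓ)
  char_frobenius : ∀ (ℓ : ℕ) [Fact ℓ.Prime], ∀ v ∉ S, (ℓ : 𝓞 K) ∉ v.asIdeal →
    ∀ σ : AbsoluteGaloisGroup K, IsFrobenius v σ → κ ℓ σ⁻¹ = (Ideal.absNorm v.asIdeal : ℚ_[ℓ])
  continuous : ∀ (i : ι) (ℓ : ℕ) [Fact ℓ.Prime], Continuous (ρ i ℓ)
  similitude : ∀ (i : ι) (ℓ : ℕ) [Fact ℓ.Prime] (g : AbsoluteGaloisGroup K),
    (ρ i ℓ g)ᵀ * adic ℓ (J i) * ρ i ℓ g = κ ℓ g ^ w i • adic ℓ (J i)
  frobenius : ∀ (i : ι) (ℓ : ℕ) [Fact ℓ.Prime], ∀ v ∉ S, (ℓ : 𝓞 K) ∉ v.asIdeal →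
    ∀ σ : AbsoluteGaloisGroup K, IsFrobenius v σ →
      (ρ i ℓ σ⁻¹).charpoly = (P i v).map (algebraMap ℚ ℚ_[ℓ])

/-- The image of Galois modulo two is large: the lattices `ℤ₂ ^ N i` are stable, the forms are integral,
`N i ≥ 6`, the `N i + 1` integral vectors `e i a` have odd products `J i (e i a, e i b)` for
`a ≠ b`, and each even permutation of the vectors `e i a` modulo two is the action of an element of the
Galois group which acts trivially on the other lattices modulo two. -/
structure LargeModTwo {K : Type} [Field K] {ι : Type} {N : ι → ℕ}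
    (J : ∀ i, Matrix (Fin (N i)) (Fin (N i)) ℚ)
    (ρ : ∀ i, AbsoluteGaloisGroup K →* Matrix (Fin (N i)) (Fin (N i)) ℚ_[2])
    (e : ∀ i, Fin (N i + 1) → Fin (N i) → ℚ_[2]) : Prop where
  rank : ∀ i, 6 ≤ N i
  integral : ∀ i g a b, ‖ρ i g a b‖ ≤ 1
  integral_form : ∀ i a b, ‖adic 2 (J i) a b‖ ≤ 1
  integral_vectors : ∀ i a b, ‖e i a b‖ ≤ 1
  products : ∀ i a b, a ≠ b → ‖e i a ⬝ᵥ adic 2 (J i) *ᵥ e i b‖ = 1
  permutations : ∀ i (π : Equiv.Perm (Fin (N i + 1))), Equiv.Perm.sign π = 1 →
    ∃ g : AbsoluteGaloisGroup K, (∀ a b, ‖(ρ i g *ᵥ e i a - e i (π a)) b‖ < 1) ∧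
      ∀ j, j ≠ i → ∀ a b, ‖(ρ j g - 1) a b‖ < 1

/-- The 2-adic representation `τ` is integral, and modulo two it does not absorb the permutations of the
frames: for each `i` some element of the Galois group acts trivially modulo two on `τ` and permutes all
the frames modulo two, the `i`-th frame not trivially; or the factorial of `N i + 1` is greater than
`2 ^ (d ^ 2 + 1)`. -/
structure FreeValues {K : Type} [Field K] {ι : Type} {N : ι → ℕ} {d : ℕ}
    (ρ : ∀ i, AbsoluteGaloisGroup K →* Matrix (Fin (N i)) (Fin (N i)) ℚ_[2])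
    (e : ∀ i, Fin (N i + 1) → Fin (N i) → ℚ_[2])
    (τ : AbsoluteGaloisGroup K →* Matrix (Fin d) (Fin d) ℚ_[2]) : Prop where
  integral : ∀ g a b, ‖τ g a b‖ ≤ 1
  free : ∀ i, 2 ^ (d ^ 2 + 1) < (N i + 1).factorial ∨
    ∃ (g : AbsoluteGaloisGroup K) (π : ∀ j, Equiv.Perm (Fin (N j + 1))),
      (∀ a b, ‖(τ g - 1) a b‖ < 1) ∧ π i ≠ 1 ∧
        ∀ j a b, ‖(ρ j g *ᵥ e j a - e j (π j a)) b‖ < 1

/-- over the extension `E` of `ℚ_ℓ` the representation has no stable subspaces except zero and
everything -/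
def IsIrreducible {K : Type} [Field K] {ℓ : ℕ} [Fact ℓ.Prime] (E : Type) [Field E] [Algebra ℚ_[ℓ] E]
    {n : ℕ} (ρ : AbsoluteGaloisGroup K →* Matrix (Fin n) (Fin n) ℚ_[ℓ]) : Prop :=
  ∀ T : Submodule E (Fin n → E),
    (∀ g, ∀ v ∈ T, (ρ g).map (algebraMap ℚ_[ℓ] E) *ᵥ v ∈ T) → T = ⊥ ∨ T = ⊤

/-- over the extension `E` of `ℚ_ℓ` the tensor product `ρ ⊗ τ` has no stable subspaces except zero and
everything; the tensor product is the space of the `m × n` matrices `A`, and `g` maps `A` to
`ρ(g) A τ(g)ᵀ` -/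
def IsIrreducibleTensor {K : Type} [Field K] {ℓ : ℕ} [Fact ℓ.Prime] (E : Type) [Field E]
    [Algebra ℚ_[ℓ] E] {m n : ℕ} (ρ : AbsoluteGaloisGroup K →* Matrix (Fin m) (Fin m) ℚ_[ℓ])
    (τ : AbsoluteGaloisGroup K →* Matrix (Fin n) (Fin n) ℚ_[ℓ]) : Prop :=
  ∀ U : Submodule E (Matrix (Fin m) (Fin n) E),
    (∀ g, ∀ A ∈ U, (ρ g).map (algebraMap ℚ_[ℓ] E) * A * ((τ g).map (algebraMap ℚ_[ℓ] E))ᵀ ∈ U) →
      U = ⊥ ∨ U = ⊤

/-- a set of prime numbers has natural density zero -/
def DensityZero (A : Set ℕ) : Prop :=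
  Tendsto (fun n : ℕ => (Nat.card {ℓ : ℕ // ℓ ≤ n ∧ ℓ ∈ A} : ℝ) / (Nat.primeCounting n : ℝ))
    atTop (𝓝 0)

/-- **Irreducibility from the image modulo two.** -/
theorem result {K : Type} [Field K] [NumberField K] {ι : Type} [Fintype ι] {N w : ι → ℕ}
    (S : Set (HeightOneSpectrum (𝓞 K))) (P : ι → HeightOneSpectrum (𝓞 K) → ℚ[X])
    (J : ∀ i, Matrix (Fin (N i)) (Fin (N i)) ℚ)
    (κ : ∀ (ℓ : ℕ) [Fact ℓ.Prime], AbsoluteGaloisGroup K →* ℚ_[ℓ])
    (ρ : ∀ (i : ι) (ℓ : ℕ) [Fact ℓ.Prime],
      AbsoluteGaloisGroup K →* Matrix (Fin (N i)) (Fin (N i)) ℚ_[ℓ])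
    (h : IsSystem (w := w) S P J κ ρ)
    -- the hypothesis on the image modulo two
    (e : ∀ i, Fin (N i + 1) → Fin (N i) → ℚ_[2]) (h2 : LargeModTwo J (fun i => ρ i 2) e) :
    -- (1) at the prime number two and at 100 percent of the prime numbers
    (∃ B : Set ℕ, DensityZero B ∧ 2 ∉ B ∧ ∀ (ℓ : ℕ) [Fact ℓ.Prime], ℓ ∉ B →
      ∀ (E : Type) [Field E] [Algebra ℚ_[ℓ] E], (∀ i, IsIrreducible E (ρ i ℓ)) ∧
        ∀ i j, i ≠ j → IsIrreducibleTensor E (ρ i ℓ) (ρ j ℓ)) ∧
    -- (2) for tensor products with an arbitrary representation, at the prime number two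
    ∀ (d : ℕ) (τ : AbsoluteGaloisGroup K →* Matrix (Fin d) (Fin d) ℚ_[2]),
      FreeValues (fun i => ρ i 2) e τ → ∀ (i : ι) (E : Type) [Field E] [Algebra ℚ_[2] E],
        (IsIrreducibleTensor E (ρ i 2) τ ↔ IsIrreducible E τ) := by
  classical
  have hpos : ∀ i, 0 < N i := fun i => by have := h2.rank i; omega
  have hdetL : ∀ (ℓ : ℕ) [Fact ℓ.Prime] i, (adic ℓ (J i)).det ≠ 0 := fun ℓ _ i =>
    Pool.Agent.R932.PO.det_map_ne (algebraMap ℚ ℚ_[ℓ]) (h.nondegenerate i)
  have haltL : ∀ (ℓ : ℕ) [Fact ℓ.Prime] i, (adic ℓ (J i))ᵀ = -adic ℓ (J i) := fun ℓ _ i =>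
    (Pool.Agent.R932.PO.Fits.map (κ := .sym) (algebraMap ℚ ℚ_[ℓ])
      (show Pool.Agent.R932.PO.Fits .sym (J i) from ⟨h.alternating i, hpos i⟩)).1
  have hfull : ∀ X, (∀ i, Pool.Agent.Y142.ZS.SpLie (Pool.Agent.R932.PO.JL J 2 i) (X i)) →
      Pool.Agent.R932.PO.JTan 2 (fun i => ρ i 2) X := fun X hX =>
    Pool.Agent.N171.TG.jtan_of_large (fun i => ρ i 2) (fun i => adic 2 (J i))
      (fun i => (powMonoidHom (w i)).comp (κ 2))
      (fun i => Pool.Agent.R932.OP.even_of_alt (haltL 2 i) (hdetL 2 i)) h2.rank (haltL 2) h2.integral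
      h2.integral_form (fun i g => h.similitude i 2 g) e h2.integral_vectors h2.products
      h2.permutations X hX
  obtain ⟨r0, r1, -, -, -⟩ := Pool.Agent.N171.TG.mt_all h.finite J h.alternating hpos
    h.nondegenerate κ
    (fun ℓ _ => h.continuous_char ℓ) (fun ℓ _ => h.char_frobenius ℓ) ρ
    (fun i ℓ _ => h.continuous i ℓ) (fun i ℓ _ => h.similitude i ℓ)
    (fun i ℓ _ => h.frobenius i ℓ) 2 hfull
  have hsingle : ∀ (ℓ : ℕ) [Fact ℓ.Prime] (i : ι) (X : Matrix (Fin (N i)) (Fin (N i)) ℚ_[ℓ]),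
      Pool.Agent.Y142.ZS.SpLie (adic ℓ (J i)) X → ∀ j, Pool.Agent.Y142.ZS.SpLie (adic ℓ (J j))
        ((Pi.single i X : ∀ j, Matrix (Fin (N j)) (Fin (N j)) ℚ_[ℓ]) j) := by
    intro ℓ _ i X hX j
    by_cases hj : j = i
    · subst hj
      rw [Pi.single_eq_same]
      exact hX
    · rw [Pi.single_eq_of_ne hj, Pool.Agent.Y142.ZS.SpLie]
      simp
  refine ⟨⟨_, r1, ?_, ?_⟩, ?_⟩
  · rintro ⟨_, hn⟩
    exact hn r0
  · intro ℓ _ hℓ E _ _
    have hMT := (not_not.1 fun hn => hℓ ⟨inferInstance, hn⟩ :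
      Pool.Agent.N171.TG.MTAt ℓ w (Pool.Agent.R932.PO.JL J ℓ) (fun i => ρ i ℓ) (κ ℓ) ∧
        Pool.Agent.N171.TG.OpAt ℓ (Pool.Agent.R932.PO.JL J ℓ) (fun i => ρ i ℓ)).1
    have htan : ∀ (i : ι) (X : Matrix (Fin (N i)) (Fin (N i)) ℚ_[ℓ]),
        Pool.Agent.Y142.ZS.SpLie (adic ℓ (J i)) X → ∃ σ : ℕ → AbsoluteGaloisGroup K,
          ∀ j, Tendsto (fun n : ℕ => ((ℓ : ℚ_[ℓ]) ^ n)⁻¹ • (ρ j ℓ (σ n) - 1)) atTop
            (𝓝 ((Pi.single i X : ∀ j, Matrix (Fin (N j)) (Fin (N j)) ℚ_[ℓ]) j)) := by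
      intro i X hX
      obtain ⟨σ, hσ, _⟩ := (hMT (Pi.single i X) 0).2 fun j => by
        have h3 := hsingle ℓ i X hX j
        rw [Pool.Agent.Y142.ZS.SpLie] at h3
        rw [mul_zero, zero_smul]
        exact h3
      exact ⟨σ, hσ⟩
    refine ⟨fun i T hT => ?_, fun i j hij => ?_⟩
    · refine Pool.Agent.N171.TG.Irr.irr_self (haltL ℓ i) (hdetL ℓ i) (fun X hX => ?_) T hT
      obtain ⟨σ, hσ⟩ := htan i X hX
      refine ⟨σ, ?_⟩
      have h3 := hσ i
      rwa [Pi.single_eq_same] at h3
    · refine (Pool.Agent.N171.TG.Irr.irr_tensor (hpos i) (haltL ℓ i) (hdetL ℓ i)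
        (fun X hX => ?_)).2 ?_
      · obtain ⟨σ, hσ⟩ := htan i X hX
        refine ⟨σ, ?_, ?_⟩
        · have h3 := hσ i
          rwa [Pi.single_eq_same] at h3
        · have h3 := hσ j
          rwa [Pi.single_eq_of_ne hij.symm] at h3
      · intro T hT
        refine Pool.Agent.N171.TG.Irr.irr_self (haltL ℓ j) (hdetL ℓ j) (fun X hX => ?_) T hT
        obtain ⟨σ, hσ⟩ := htan j X hX
        refine ⟨σ, ?_⟩
        have h3 := hσ j
        rwa [Pi.single_eq_same] at h3
  · intro d τ hτ i E _ _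
    refine Pool.Agent.N171.TG.Irr.irr_tensor (hpos i) (haltL 2 i) (hdetL 2 i) fun X hX => ?_
    obtain ⟨σ, h3, h4⟩ := Pool.Agent.N171.TG.wtan_of_large (fun i => ρ i 2) (fun i => adic 2 (J i))
        (fun i => (powMonoidHom (w i)).comp (κ 2))
        (fun i => Pool.Agent.R932.OP.even_of_alt (haltL 2 i) (hdetL 2 i)) h2.rank (haltL 2)
        h2.integral h2.integral_form (fun i g => h.similitude i 2 g) e h2.integral_vectors
        h2.products h2.permutations τ hτ.integral hτ.free (Pi.single i X) (hsingle 2 i X hX)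
    refine ⟨σ, ?_, h4⟩
    have h5 := h3 i
    rwa [Pi.single_eq_same] at h5

end Pool.Agent.Results.MP_fa5bba_nt.TensorProducts
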